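import Pool.Agent.Y506.FF.Stm

/-!
# Isotropic log-concave densities in low dimension
-/

set_option autoImplicit false

namespace Pool.Agent.Y363.FF

open MeasureTheory Set Filter Topology
open scoped ENNReal InnerProductSpace
open Pool.Agent.W695.KH (Eu)
open Pool.Agent.Y506.FF

variable {d : ℕ} {g : Eu (Fin d) → ℝ≥0∞}

/-- the measure with the density `g` -/
noncomputable def mu (g : Eu (Fin d) → ℝ≥0∞) : Measure (Eu (Fin d)) := volume.withDensity g

lemma mu_prob (h : IL g) : IsProbabilityMeasure (mu g) :=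
  ⟨by rw [mu, withDensity_apply _ MeasurableSet.univ, setLIntegral_univ]; exact h.mass⟩

lemma lint_mu (h : IL g) {f : Eu (Fin d) → ℝ≥0∞} (hf : Measurable f) :
    ∫⁻ z, f z ∂(mu g) = ∫⁻ z, f z * g z := by
  rw [mu, lintegral_withDensity_eq_lintegral_mul _ h.meas hf]
  simp only [Pi.mul_apply, mul_comm]

lemma meas_inner (w : Eu (Fin d)) : Measurable fun z : Eu (Fin d) => ⟪w, z⟫_ℝ := by fun_prop

lemma int_sq (h : IL g) (w : Eu (Fin d)) : Integrable (fun z => ⟪w, z⟫_ℝ ^ 2) (mu g) ∧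
    ∫ z, ⟪w, z⟫_ℝ ^ 2 ∂(mu g) = ‖w‖ ^ 2 := by
  have hm : Measurable fun z : Eu (Fin d) => ⟪w, z⟫_ℝ ^ 2 := (meas_inner w).pow_const 2
  have h1 : ∫⁻ z, ENNReal.ofReal (⟪w, z⟫_ℝ ^ 2) ∂(mu g) = ENNReal.ofReal (‖w‖ ^ 2) := by
    rw [lint_mu h hm.ennreal_ofReal, h.m2]
  constructor
  · refine (lintegral_ofReal_ne_top_iff_integrable hm.aestronglyMeasurable
      (Eventually.of_forall fun z => by positivity)).1 ?_
    rw [h1]
    exact ENNReal.ofReal_ne_top
  · rw [integral_eq_lintegral_of_nonneg_ae (Eventually.of_forall fun z => by positivity)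
      hm.aestronglyMeasurable, h1, ENNReal.toReal_ofReal (by positivity)]

lemma int_four (h : IL g) (w : Eu (Fin d)) : Integrable (fun z => ⟪w, z⟫_ℝ ^ 4) (mu g) ∧
    ∫ z, ⟪w, z⟫_ℝ ^ 4 ∂(mu g) ≤ 9 * ‖w‖ ^ 4 := by
  have hm : Measurable fun z : Eu (Fin d) => ⟪w, z⟫_ℝ ^ 4 := (meas_inner w).pow_const 4
  have h0 : ∀ z : Eu (Fin d), 0 ≤ ⟪w, z⟫_ℝ ^ 4 := fun z => by positivity
  have h1 : ∫⁻ z, ENNReal.ofReal (⟪w, z⟫_ℝ ^ 4) ∂(mu g) ≤ ENNReal.ofReal (9 * ‖w‖ ^ 4) := by
    rw [lint_mu h hm.ennreal_ofReal]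
    exact h.m4 w
  constructor
  · refine (lintegral_ofReal_ne_top_iff_integrable hm.aestronglyMeasurable
      (Eventually.of_forall h0)).1 ?_
    exact (h1.trans_lt ENNReal.ofReal_lt_top).ne
  · rw [integral_eq_lintegral_of_nonneg_ae (Eventually.of_forall h0) hm.aestronglyMeasurable]
    exact ENNReal.toReal_le_of_le_ofReal (by positivity) h1

lemma int_one (h : IL g) (w : Eu (Fin d)) : Integrable (fun z => ⟪w, z⟫_ℝ) (mu g) ∧
    ∫ z, ⟪w, z⟫_ℝ ∂(mu g) = 0 := by
  have _ := mu_prob h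
  have hi : Integrable (fun z => ⟪w, z⟫_ℝ) (mu g) := by
    refine ((integrable_const (1 : ℝ)).add (int_sq h w).1).mono'
      (meas_inner w).aestronglyMeasurable (Eventually.of_forall fun z => ?_)
    rw [Real.norm_eq_abs, Pi.add_apply]
    rw [← sq_abs]
    nlinarith [abs_nonneg ⟪w, z⟫_ℝ, sq_nonneg (|⟪w, z⟫_ℝ| - 1)]
  refine ⟨hi, ?_⟩
  have hneg : ∫⁻ z, ENNReal.ofReal (-⟪w, z⟫_ℝ) ∂(mu g) =
      ∫⁻ z, ENNReal.ofReal (-⟪w, z⟫_ℝ) * g z :=
    lint_mu h (f := fun z => ENNReal.ofReal (-⟪w, z⟫_ℝ)) (meas_inner w).neg.ennreal_ofReal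
  rw [integral_eq_lintegral_pos_part_sub_lintegral_neg_part hi,
    lint_mu h (meas_inner w).ennreal_ofReal, hneg, h.m1, sub_self]

/-- (1): the half space -/
lemma half (h : IL g) {u : Eu (Fin d)} (hu : ‖u‖ = 1) :
    1 / 1764 ≤ (mu g).real {z | 1 / 7 < ⟪u, z⟫_ℝ} := by
  have _ := mu_prob h
  obtain ⟨i2, e2⟩ := int_sq h u
  obtain ⟨i4, e4⟩ := int_four h u
  obtain ⟨i1, e1⟩ := int_one h u
  rw [hu] at e2 e4
  norm_num at e2 e4
  have ia := i1.abs
  -- the first moment
  have h1 : 1 / 3 ≤ ∫ z, |⟪u, z⟫_ℝ| ∂(mu g) := by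
    have h2 : ∫ z, ⟪u, z⟫_ℝ ^ 2 ∂(mu g) ≤
        ∫ z, (2 * |⟪u, z⟫_ℝ| + 1 / 27 * ⟪u, z⟫_ℝ ^ 4) ∂(mu g) := by
      refine integral_mono i2 ((ia.const_mul 2).add (i4.const_mul (1 / 27))) fun z => ?_
      simp only
      have h3 : 0 ≤ |⟪u, z⟫_ℝ| := abs_nonneg _
      have h4 : ⟪u, z⟫_ℝ ^ 2 = |⟪u, z⟫_ℝ| ^ 2 := (sq_abs _).symm
      have h5 : ⟪u, z⟫_ℝ ^ 4 = |⟪u, z⟫_ℝ| ^ 4 := by
        rw [show (4 : ℕ) = 2 * 2 by norm_num, pow_mul, pow_mul, sq_abs]
      rw [h4, h5]
      set x := |⟪u, z⟫_ℝ| with hx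
      have h6 : 0 ≤ x * ((x - 3) ^ 2 * (x + 6)) := by positivity
      nlinarith
    rw [integral_add (ia.const_mul 2) (i4.const_mul (1 / 27)), integral_const_mul,
      integral_const_mul, e2] at h2
    linarith
  -- the indicator function
  set S : Set (Eu (Fin d)) := {z | 1 / 7 < ⟪u, z⟫_ℝ} with hS
  have hSm : MeasurableSet S := measurableSet_lt measurable_const (meas_inner u)
  have iS : Integrable (S.indicator fun _ => (1 : ℝ)) (mu g) :=
    (integrable_const (1 : ℝ)).indicator hSm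
  have h2 : ∫ z, (1 / 2 * |⟪u, z⟫_ℝ| + 1 / 2 * ⟪u, z⟫_ℝ) ∂(mu g) ≤
      ∫ z, (1 / 7 + (1 / 84 * ⟪u, z⟫_ℝ ^ 2 + 21 * S.indicator (fun _ => (1 : ℝ)) z)) ∂(mu g) := by
    refine integral_mono ((ia.const_mul (1 / 2)).add (i1.const_mul (1 / 2)))
      ((integrable_const _).add ((i2.const_mul (1 / 84)).add (iS.const_mul 21))) fun z => ?_
    simp only
    by_cases hz : z ∈ S
    · rw [indicator_of_mem hz]
      have h3 : 1 / 7 < ⟪u, z⟫_ℝ := hz
      rw [abs_of_pos (by linarith)]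
      nlinarith [sq_nonneg (⟪u, z⟫_ℝ - 42)]
    · rw [indicator_of_notMem hz]
      have h3 : ⟪u, z⟫_ℝ ≤ 1 / 7 := not_lt.1 hz
      rcases le_total 0 ⟪u, z⟫_ℝ with h4 | h4
      · rw [abs_of_nonneg h4]
        nlinarith [sq_nonneg ⟪u, z⟫_ℝ]
      · rw [abs_of_nonpos h4]
        nlinarith [sq_nonneg ⟪u, z⟫_ℝ]
  have iB : Integrable (fun z => 1 / 84 * ⟪u, z⟫_ℝ ^ 2 +
      21 * {z | 1 / 7 < ⟪u, z⟫_ℝ}.indicator (fun _ => (1 : ℝ)) z) (mu g) :=
    (i2.const_mul (1 / 84)).add (iS.const_mul 21)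
  rw [integral_add (ia.const_mul (1 / 2)) (i1.const_mul (1 / 2)), integral_const_mul,
    integral_const_mul, e1,
    integral_add (integrable_const _) iB,
    integral_add (i2.const_mul (1 / 84)) (iS.const_mul 21), integral_const_mul,
    integral_const_mul, e2, integral_const, integral_indicator_const _ hSm] at h2
  simp only [probReal_univ, smul_eq_mul, mul_one, one_mul, mul_zero, add_zero] at h2
  linarith

/-- (2): the tails -/
lemma tail (h : IL g) {ε : ℝ} : ε * (mu g).real {z | ε ≤ ‖z‖ ^ 2} ≤ d := by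
  have _ := mu_prob h
  have hn : ∀ z : Eu (Fin d), ‖z‖ ^ 2 = ∑ j, ⟪(EuclideanSpace.single j (1 : ℝ) : Eu (Fin d)), z⟫_ℝ ^ 2 := by
    intro z
    rw [EuclideanSpace.norm_sq_eq]
    refine Finset.sum_congr rfl fun j _ => ?_
    rw [EuclideanSpace.inner_single_left]
    simp
  have hi : Integrable (fun z : Eu (Fin d) => ‖z‖ ^ 2) (mu g) := by
    simp only [hn]
    exact integrable_finsetSum _ fun j _ => (int_sq h _).1
  have h1 := mul_meas_ge_le_integral_of_nonneg (μ := mu g)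
    (f := fun z : Eu (Fin d) => ‖z‖ ^ 2) (Eventually.of_forall fun z => by positivity) hi ε
  refine h1.trans (le_of_eq ?_)
  simp only [hn]
  rw [integral_finsetSum _ fun j _ => (int_sq h _).1]
  simp only [(int_sq h _).2]
  simp

/-- the measure of a set as an integral -/
lemma mu_set {E : Set (Eu (Fin d))} (hE : MeasurableSet E) : mu g E = ∫⁻ z in E, g z := by
  rw [mu, withDensity_apply _ hE]

/-- the radius -/
noncomputable def RR (d : ℕ) : ℝ := √(3528 * d)

/-- the volume of the large ball -/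
noncomputable def Vb (d : ℕ) : ℝ := (volume (Metric.closedBall (0 : Eu (Fin d)) (RR d))).toReal

/-- the lower bound -/
noncomputable def cc (d : ℕ) : ℝ := 1 / (7056 * Vb d)

lemma Vb_pos (hd : 0 < d) : 0 < Vb d := by
  have hR : 0 < RR d := by
    have : (0 : ℝ) < d := by exact_mod_cast hd
    unfold RR
    positivity
  refine ENNReal.toReal_pos (Metric.measure_closedBall_pos volume _ hR).ne'
    measure_closedBall_lt_top.ne

lemma cc_pos (hd : 0 < d) : 0 < cc d := by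
  have := Vb_pos hd
  unfold cc
  positivity

/-- a unit vector -/
lemma exists_unit (hd : 0 < d) : ∃ u : Eu (Fin d), ‖u‖ = 1 :=
  ⟨EuclideanSpace.single ⟨0, hd⟩ 1, by simp⟩

/-- (3): the lower bound -/
lemma lower (hd : 0 < d) (h : IL g) {z : Eu (Fin d)} (hz : ‖z‖ ≤ 1 / 7) :
    ENNReal.ofReal (cc d) ≤ g z := by
  by_contra hcon
  rw [not_le] at hcon
  have _ := mu_prob h
  have hc := cc_pos hd
  set c := ENNReal.ofReal (cc d) with hcdef
  have hc0 : c ≠ 0 := (ENNReal.ofReal_pos.2 hc).ne'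
  have hct : c ≠ ⊤ := ENNReal.ofReal_ne_top
  set S : Set (Eu (Fin d)) := {y | c ≤ g y} with hS
  have hconv : Convex ℝ S := by
    intro x hx y hy a b ha hb hab
    rcases ha.eq_or_lt with ha0 | ha0
    · have hb1 : b = 1 := by linarith
      rw [← ha0, hb1, zero_smul, one_smul, zero_add]
      exact hy
    rcases hb.eq_or_lt with hb0 | hb0
    · have ha1 : a = 1 := by linarith
      rw [← hb0, ha1, zero_smul, one_smul, add_zero]
      exact hx
    have h1 := h.lc x y b hb0 (by linarith)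
    have ha' : 1 - b = a := by linarith
    rw [ha'] at h1
    have h2 : c ^ a * c ^ b ≤ g x ^ a * g y ^ b :=
      mul_le_mul' (ENNReal.rpow_le_rpow hx ha) (ENNReal.rpow_le_rpow hy hb)
    rw [← ENNReal.rpow_add _ _ hc0 hct, hab, ENNReal.rpow_one] at h2
    exact h2.trans h1
  have hzS : z ∉ interior S := fun hz' => by
    have h0 : z ∈ S := interior_subset hz'
    exact (not_le.2 hcon) h0
  -- a half space
  obtain ⟨u, hu, hsep⟩ : ∃ u : Eu (Fin d), ‖u‖ = 1 ∧ ∀ y ∈ interior S, ⟪u, y⟫_ℝ ≤ 1 / 7 := by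
    rcases (interior S).eq_empty_or_nonempty with hem | ⟨a, ha⟩
    · obtain ⟨u, hu⟩ := exists_unit hd
      refine ⟨u, hu, fun y hy => ?_⟩
      rw [hem] at hy
      exact absurd hy (notMem_empty y)
    · obtain ⟨f, hf⟩ := geometric_hahn_banach_open_point hconv.interior isOpen_interior hzS
      set u' : Eu (Fin d) := (InnerProductSpace.toDual ℝ (Eu (Fin d))).symm f with hu'
      have hfu : ∀ y, ⟪u', y⟫_ℝ = f y := fun y => InnerProductSpace.toDual_symm_apply
      have hu0 : u' ≠ 0 := by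
        intro h0
        have h1 := hf a ha
        rw [← hfu, ← hfu, h0, inner_zero_left, inner_zero_left] at h1
        exact lt_irrefl _ h1
      have hn : 0 < ‖u'‖ := norm_pos_iff.2 hu0
      refine ⟨‖u'‖⁻¹ • u', ?_, fun y hy => ?_⟩
      · rw [norm_smul, norm_inv, norm_norm, inv_mul_cancel₀ hn.ne']
      · have h1 := hf y hy
        rw [← hfu, ← hfu] at h1
        rw [real_inner_smul_left]
        have h2 : ⟪u', z⟫_ℝ ≤ ‖u'‖ * (1 / 7) :=
          (real_inner_le_norm _ _).trans (mul_le_mul_of_nonneg_left hz hn.le)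
        rw [inv_mul_le_iff₀ hn]
        linarith
  -- the mass of the half space
  have h1 := half h hu
  set R := RR d with hR
  have hd' : (0 : ℝ) < d := by exact_mod_cast hd
  have hR2 : R ^ 2 = 3528 * d := by
    rw [hR, RR, Real.sq_sqrt (by positivity)]
  have hR0 : 0 ≤ R := by rw [hR, RR]; positivity
  have h2 : (mu g).real {z | 3528 * (d : ℝ) ≤ ‖z‖ ^ 2} ≤ 1 / 3528 := by
    have h3 := tail h (ε := 3528 * (d : ℝ))
    have h4 : (d : ℝ) * (3528 * (mu g).real {z | 3528 * (d : ℝ) ≤ ‖z‖ ^ 2}) ≤ d * 1 := by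
      linarith
    have h5 := le_of_mul_le_mul_left h4 hd'
    linarith
  set E : Set (Eu (Fin d)) := {z | 1 / 7 < ⟪u, z⟫_ℝ} ∩ Metric.closedBall 0 R with hE
  have hEm : MeasurableSet E :=
    (measurableSet_lt measurable_const (meas_inner u)).inter Metric.isClosed_closedBall.measurableSet
  have h3 : (mu g).real {z | 1 / 7 < ⟪u, z⟫_ℝ} ≤
      (mu g).real E + (mu g).real {z | 3528 * (d : ℝ) ≤ ‖z‖ ^ 2} := by
    refine le_trans (measureReal_mono ?_ (measure_ne_top _ _)) (measureReal_union_le _ _)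
    intro y hy
    by_cases hyR : ‖y‖ ≤ R
    · left
      exact ⟨hy, by rw [mem_closedBall_zero_iff]; exact hyR⟩
    · right
      rw [mem_ofPred_eq, ← hR2]
      have := not_le.1 hyR
      nlinarith
  have h4 : 1 / 3528 ≤ (mu g).real E := by linarith
  -- an upper bound
  have h5 : mu g E ≤ c * volume (Metric.closedBall (0 : Eu (Fin d)) R) := by
    rw [mu_set hEm]
    have hfr : volume (frontier S) = 0 := hconv.addHaar_frontier volume
    have hae : ∀ᵐ y ∂(volume : Measure (Eu (Fin d))), y ∈ E → g y ≤ c := by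
      have h6 : ∀ᵐ y ∂(volume : Measure (Eu (Fin d))), y ∉ frontier S :=
        compl_mem_ae_iff.2 hfr
      filter_upwards [h6] with y hy hyE
      by_contra hlt
      have hyS : y ∈ S := (not_le.1 hlt).le
      have hyi : y ∉ interior S := fun hyi => not_lt.2 (hsep y hyi) hyE.1
      exact hy ⟨subset_closure hyS, hyi⟩
    refine (setLIntegral_mono_ae aemeasurable_const hae).trans ?_
    rw [setLIntegral_const]
    exact mul_le_mul' le_rfl (measure_mono inter_subset_right)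
  have h6 : (mu g).real E ≤ cc d * Vb d := by
    have h7 : c * volume (Metric.closedBall (0 : Eu (Fin d)) R) ≠ ⊤ :=
      ENNReal.mul_ne_top hct measure_closedBall_lt_top.ne
    have h8 := ENNReal.toReal_mono h7 h5
    rw [ENNReal.toReal_mul, hcdef, ENNReal.toReal_ofReal hc.le] at h8
    exact h8
  have h7 : cc d * Vb d = 1 / 7056 := by
    have := Vb_pos hd
    unfold cc
    field_simp
  rw [h7] at h6
  linarith

/-- the volume of the small ball -/
noncomputable def vs (d : ℕ) : ℝ := (volume (Metric.closedBall (0 : Eu (Fin d)) (1 / 14))).toReal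

lemma vs_pos : 0 < vs d :=
  ENNReal.toReal_pos (Metric.measure_closedBall_pos volume _ (by norm_num)).ne'
    measure_closedBall_lt_top.ne

lemma vs_eq (z : Eu (Fin d)) :
    volume (Metric.closedBall z (1 / 14)) = ENNReal.ofReal (vs d) := by
  rw [vs, ENNReal.ofReal_toReal measure_closedBall_lt_top.ne,
    Measure.addHaar_closedBall_center volume z (1 / 14)]

/-- (4): a point of large density -/
lemma upper_aux (hd : 0 < d) (h : IL g) (z : Eu (Fin d)) {q : ℝ} (hq : 0 ≤ q)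
    (hm : mu g (Metric.closedBall ((1 / 2 : ℝ) • z) (1 / 14)) ≤ ENNReal.ofReal q) :
    g z ≤ ENNReal.ofReal (q ^ 2 / (vs d ^ 2 * cc d)) := by
  have hc := cc_pos hd
  have hv := vs_pos (d := d)
  set c := ENNReal.ofReal (cc d) with hcdef
  have h1 : ∀ y ∈ Metric.closedBall ((1 / 2 : ℝ) • z) (1 / 14),
      g z ^ (1 / 2 : ℝ) * c ^ (1 / 2 : ℝ) ≤ g y := by
    intro y hy
    have h2 : ‖(2 : ℝ) • (y - (1 / 2 : ℝ) • z)‖ ≤ 1 / 7 := by
      rw [norm_smul, Real.norm_of_nonneg (by norm_num : (0 : ℝ) ≤ 2)]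
      rw [Metric.mem_closedBall, dist_eq_norm] at hy
      linarith
    have h3 := lower hd h h2
    have h4 := h.lc z ((2 : ℝ) • (y - (1 / 2 : ℝ) • z)) (1 / 2) (by norm_num) (by norm_num)
    have e : (1 - 1 / 2 : ℝ) • z + (1 / 2 : ℝ) • ((2 : ℝ) • (y - (1 / 2 : ℝ) • z)) = y := by
      rw [smul_smul, show (1 / 2 : ℝ) * 2 = 1 by norm_num, one_smul,
        show (1 - 1 / 2 : ℝ) = 1 / 2 by norm_num]
      abel
    rw [e, show (1 - 1 / 2 : ℝ) = 1 / 2 by norm_num] at h4
    exact (mul_le_mul' le_rfl (ENNReal.rpow_le_rpow h3 (by norm_num))).trans h4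
  have h5 : g z ^ (1 / 2 : ℝ) * c ^ (1 / 2 : ℝ) * ENNReal.ofReal (vs d) ≤ ENNReal.ofReal q := by
    refine le_trans ?_ hm
    rw [mu_set Metric.isClosed_closedBall.measurableSet]
    refine le_trans (le_of_eq ?_) (setLIntegral_mono h.meas h1)
    rw [setLIntegral_const, vs_eq]
  have h6 : g z * (c * ENNReal.ofReal (vs d ^ 2)) ≤ ENNReal.ofReal (q ^ 2) := by
    have h7 := pow_le_pow_left' h5 2
    have e1 : (g z ^ (1 / 2 : ℝ)) ^ 2 = g z := by
      rw [← ENNReal.rpow_natCast, ← ENNReal.rpow_mul]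
      norm_num
    have e2 : (c ^ (1 / 2 : ℝ)) ^ 2 = c := by
      rw [← ENNReal.rpow_natCast, ← ENNReal.rpow_mul]
      norm_num
    rw [mul_pow, mul_pow, e1, e2, ← ENNReal.ofReal_pow hv.le, ← ENNReal.ofReal_pow hq,
      mul_assoc] at h7
    exact h7
  rw [hcdef, ← ENNReal.ofReal_mul hc.le] at h6
  have hp : 0 < cc d * vs d ^ 2 := by positivity
  rw [← ENNReal.le_div_iff_mul_le (Or.inl (ENNReal.ofReal_pos.2 hp).ne')
    (Or.inl ENNReal.ofReal_ne_top), ← ENNReal.ofReal_div_of_pos hp] at h6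
  rwa [mul_comm (vs d ^ 2)]

/-- **Isotropic log-concave densities.** -/
theorem ld : S_LD := by
  intro d hd
  have hc := cc_pos hd
  have hv := vs_pos (d := d)
  refine ⟨cc d, 256 / (vs d ^ 2 * cc d), hc, by positivity, fun g h => ⟨fun z hz => lower hd h hz,
    ?_, ?_⟩⟩
  · intro z
    have _ := mu_prob h
    refine (upper_aux hd h z (q := 1) zero_le_one (by
      rw [ENNReal.ofReal_one]
      exact prob_le_one)).trans (ENNReal.ofReal_le_ofReal ?_)
    gcongr
    norm_num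
  · intro z
    have _ := mu_prob h
    rcases le_or_gt ‖z‖ 1 with hz | hz
    · have h1 := upper_aux hd h z (q := 1) zero_le_one (by
        rw [ENNReal.ofReal_one]
        exact prob_le_one)
      calc ENNReal.ofReal (‖z‖ ^ 4) * g z ≤ 1 * g z := by
            refine mul_le_mul' ?_ le_rfl
            rw [← ENNReal.ofReal_one]
            exact ENNReal.ofReal_le_ofReal (pow_le_one₀ (norm_nonneg _) hz)
        _ = g z := one_mul _
        _ ≤ _ := h1.trans (ENNReal.ofReal_le_ofReal (by gcongr; norm_num))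
    · have hz0 : 0 < ‖z‖ := by linarith
      set w : Eu (Fin d) := ‖z‖⁻¹ • z with hw
      have hwn : ‖w‖ = 1 := by
        rw [hw, norm_smul, norm_inv, norm_norm, inv_mul_cancel₀ hz0.ne']
      have hwz : ⟪w, z⟫_ℝ = ‖z‖ := by
        rw [hw, real_inner_smul_left, real_inner_self_eq_norm_sq]
        field_simp
      have h1 : (mu g).real {y | (‖z‖ / 4) ^ 2 ≤ ⟪w, y⟫_ℝ ^ 2} ≤ 16 / ‖z‖ ^ 2 := by
        have h2 := mul_meas_ge_le_integral_of_nonneg (μ := mu g)
          (f := fun y : Eu (Fin d) => ⟪w, y⟫_ℝ ^ 2) (Eventually.of_forall fun y => by positivity)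
          (int_sq h w).1 ((‖z‖ / 4) ^ 2)
        rw [(int_sq h w).2, hwn] at h2
        rw [le_div_iff₀ (by positivity)]
        nlinarith
      have h3 : mu g (Metric.closedBall ((1 / 2 : ℝ) • z) (1 / 14)) ≤
          ENNReal.ofReal (16 / ‖z‖ ^ 2) := by
        refine (measure_mono (t := {y | (‖z‖ / 4) ^ 2 ≤ ⟪w, y⟫_ℝ ^ 2}) ?_).trans ?_
        · intro y hy
          rw [Metric.mem_closedBall, dist_eq_norm] at hy
          have h4 : ⟪w, y⟫_ℝ = ‖z‖ / 2 + ⟪w, y - (1 / 2 : ℝ) • z⟫_ℝ := by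
            rw [inner_sub_right, real_inner_smul_right, hwz]
            ring
          have h5 : |⟪w, y - (1 / 2 : ℝ) • z⟫_ℝ| ≤ 1 / 14 := by
            refine (abs_real_inner_le_norm _ _).trans ?_
            rw [hwn, one_mul]
            exact hy
          have h6 := (abs_le.1 h5).1
          rw [mem_ofPred_eq, h4]
          have h7 : ‖z‖ / 4 ≤ ‖z‖ / 2 + ⟪w, y - (1 / 2 : ℝ) • z⟫_ℝ := by linarith
          exact pow_le_pow_left₀ (by positivity) h7 2
        · rw [← ENNReal.ofReal_toReal (measure_ne_top (mu g) _)]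
          exact ENNReal.ofReal_le_ofReal h1
      have h8 := upper_aux hd h z (q := 16 / ‖z‖ ^ 2) (by positivity) h3
      calc ENNReal.ofReal (‖z‖ ^ 4) * g z
          ≤ ENNReal.ofReal (‖z‖ ^ 4) * ENNReal.ofReal ((16 / ‖z‖ ^ 2) ^ 2 / (vs d ^ 2 * cc d)) :=
            mul_le_mul' le_rfl h8
        _ = ENNReal.ofReal (256 / (vs d ^ 2 * cc d)) := by
            rw [← ENNReal.ofReal_mul (by positivity)]
            congr 1
            field_simp
            norm_num

end Pool.Agent.Y363.FF
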